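import Pool.Agent.N658.SP.Oct

/-! The `ℓ₁`-sum of the levels is `κ`-octahedral (project OCT). -/

set_option autoImplicit false

namespace Pool.Agent.N756.OCT

open Cardinal Pool.Agent.N658.SP.Oct

universe u

theorem bdd_C0 {I : Type u} (y : C0 I) : ∃ C : ℝ, 0 ≤ C ∧ ∀ a, |(y : I → ℝ) a| ≤ C := by
  have hf : {a | (1 : ℝ) ≤ |(y : I → ℝ) a|}.Finite := y.2 1 one_pos
  refine ⟨1 + ∑ a ∈ hf.toFinset, |(y : I → ℝ) a|, ?_, fun a => ?_⟩
  · have := Finset.sum_nonneg (fun a (_ : a ∈ hf.toFinset) => abs_nonneg ((y : I → ℝ) a))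
    linarith
  · have h0 := Finset.sum_nonneg (fun a (_ : a ∈ hf.toFinset) => abs_nonneg ((y : I → ℝ) a))
    by_cases ha : (1 : ℝ) ≤ |(y : I → ℝ) a|
    · have := Finset.single_le_sum (fun a (_ : a ∈ hf.toFinset) => abs_nonneg ((y : I → ℝ) a))
        (hf.mem_toFinset.2 ha)
      linarith
    · push Not at ha
      linarith

theorem countable_C0 {I : Type u} (y : C0 I) : {a | (y : I → ℝ) a ≠ 0}.Countable := by
  have h1 : {a | (y : I → ℝ) a ≠ 0} ⊆ ⋃ k : ℕ, {a | 1 / ((k : ℝ) + 1) ≤ |(y : I → ℝ) a|} := by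
    intro a ha
    obtain ⟨k, hk⟩ := exists_nat_one_div_lt (abs_pos.2 ha)
    exact Set.mem_iUnion.2 ⟨k, hk.le⟩
  refine Set.Countable.mono h1 (Set.countable_iUnion fun k => ?_)
  exact (y.2 _ (by positivity)).countable

theorem val_single {I : Type u} [LinearOrder I] (r : ℝ) (h0 : 0 ≤ r) (h1 : r ≤ 1) (a : I)
    (l : List I) (hl : l.Pairwise (fun a b => b < a)) :
    (a ∉ l → val r (Pi.single a (1 : ℝ)) l = 0) ∧ 0 ≤ val r (Pi.single a (1 : ℝ)) l ∧
      val r (Pi.single a (1 : ℝ)) l ≤ 1 := by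
  induction l with
  | nil => simp [val]
  | cons b l ih =>
    rw [List.pairwise_cons] at hl
    obtain ⟨i1, i2, i3⟩ := ih hl.2
    have hle : r * val r (Pi.single a (1 : ℝ)) l ≤ 1 := by nlinarith
    have hge : 0 ≤ r * val r (Pi.single a (1 : ℝ)) l := mul_nonneg h0 i2
    by_cases hb : b = a
    · subst hb
      have hn : b ∉ l := fun hmem => lt_irrefl _ (hl.1 b hmem)
      refine ⟨fun h => absurd List.mem_cons_self h, ?_, ?_⟩
      · rw [val, Pi.single_eq_same, i1 hn]; norm_num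
      · rw [val, Pi.single_eq_same, i1 hn]; norm_num
    · have e : val r (Pi.single a (1 : ℝ)) (b :: l) = r * val r (Pi.single a (1 : ℝ)) l := by
        rw [val, Pi.single_eq_of_ne hb, abs_zero, zero_add]
      rw [e]
      refine ⟨fun h => ?_, hge, hle⟩
      rw [i1 (fun h' => h (List.mem_cons_of_mem _ h')), mul_zero]

theorem abs_single_le {I : Type u} [LinearOrder I] (a b : I) :
    |(Pi.single a (1 : ℝ) : I → ℝ) b| ≤ 1 := by
  by_cases h : b = a
  · subst h; rw [Pi.single_eq_same, abs_one]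
  · rw [Pi.single_eq_of_ne h, abs_zero]; exact zero_le_one

theorem single_mem {I : Type u} [LinearOrder I] (a : I) : (Pi.single a (1 : ℝ) : I → ℝ) ∈ C0 I := by
  intro d hd
  refine (Set.finite_singleton a).subset fun b hb => ?_
  by_contra hne
  have hne' : b ≠ a := hne
  have hb' : d ≤ |(Pi.single a (1 : ℝ) : I → ℝ) b| := hb
  rw [Pi.single_eq_of_ne hne', abs_zero] at hb'
  linarith

theorem nrm_single (h : StmNrm.{u}) {I : Type u} [LinearOrder I] (r : ℝ) (h0 : 0 ≤ r)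
    (h1 : r < 1) (a : I) : nrm r (Pi.single a (1 : ℝ) : I → ℝ) = 1 := by
  obtain ⟨n1, -, -, -⟩ := h I r h0 h1
  obtain ⟨-, -, -, m4⟩ := n1 (Pi.single a 1) 1 (abs_single_le a) zero_le_one
  refine le_antisymm ?_ ?_
  · unfold nrm
    refine csSup_le ⟨0, [], List.Pairwise.nil, rfl⟩ ?_
    rintro v ⟨l, hl, rfl⟩
    exact (val_single r h0 h1.le a l hl).2.2
  · have := m4 a
    rwa [Pi.single_eq_same, abs_one] at this

theorem norm_l1 {E : ℕ → Type u} [∀ n, NormedAddCommGroup (E n)] (f : lp E 1) :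
    Summable (fun m => ‖f m‖) ∧ ‖f‖ = ∑' m, ‖f m‖ := by
  have h1 := (lp.memℓp f).summable (by norm_num)
  have h2 := lp.norm_eq_tsum_rpow (p := 1) (by norm_num) f
  simp only [ENNReal.toReal_one, Real.rpow_one, div_one] at h1 h2
  exact ⟨h1, h2⟩

theorem rr_bd (n : ℕ) : 0 ≤ rr n ∧ rr n < 1 := by
  unfold rr
  have h1 : (0 : ℝ) < 1 / ((n : ℝ) + 2) := by positivity
  have h2 : 1 / ((n : ℝ) + 2) ≤ 1 := by
    rw [div_le_one (by positivity)]
    have : (0 : ℝ) ≤ n := Nat.cast_nonneg n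
    linarith
  constructor <;> linarith

theorem stmKOct (h : StmNrm.{u}) : StmKOct.{u} := by
  intro κ hκ I _ hI E _ _ φ hφ ε hε Y hD
  obtain ⟨D, hDY, hDκ, hYD⟩ := hD
  obtain ⟨n, hn⟩ := exists_nat_one_div_lt hε
  obtain ⟨r0, r1⟩ := rr_bd n
  have hrε : 1 - ε ≤ rr n := by
    unfold rr
    have : 1 / ((n : ℝ) + 2) ≤ 1 / ((n : ℝ) + 1) :=
      one_div_le_one_div_of_le (by positivity) (by linarith)
    linarith
  obtain ⟨n1, -, -, n4⟩ := h I (rr n) r0 r1
  -- the coordinates are bounded by the norm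
  have hcoord : ∀ (z : lp E 1) (b : I), |(φ n (z n) : I → ℝ) b| ≤ ‖z‖ := by
    intro z b
    obtain ⟨C, hC0, hC⟩ := bdd_C0 (φ n (z n))
    have h1 := (n1 (φ n (z n)) C hC hC0).2.2.2 b
    rw [← hφ n (z n)] at h1
    exact h1.trans (lp.norm_apply_le_norm one_ne_zero z n)
  -- the supports
  obtain ⟨a, ha⟩ := hI (⋃ d : D, {a | (φ n ((d : lp E 1) n) : I → ℝ) a ≠ 0}) (by
    refine (mk_iUnion_le _).trans ?_
    have h1 : ⨆ d : D, #{a | (φ n ((d : lp E 1) n) : I → ℝ) a ≠ 0} ≤ ℵ₀ :=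
      ciSup_le' fun d => (countable_C0 _).le_aleph0
    calc #D * ⨆ d : D, #{a | (φ n ((d : lp E 1) n) : I → ℝ) a ≠ 0} ≤ κ * κ :=
          mul_le_mul' hDκ (h1.trans hκ)
      _ = κ := mul_eq_self hκ)
  have hzero : ∀ y ∈ Y, ∀ b, a ≤ b → (φ n (y n) : I → ℝ) b = 0 := by
    intro y hy b hb
    have hD0 : ∀ d ∈ D, (φ n (d n) : I → ℝ) b = 0 := by
      intro d hd
      by_contra hne
      exact absurd (ha b (Set.mem_iUnion.2 ⟨⟨d, hd⟩, hne⟩)) (not_lt.2 hb)
    rw [← abs_eq_zero]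
    refine le_antisymm (le_of_forall_pos_le_add fun δ hδ => ?_) (abs_nonneg _)
    obtain ⟨d, hd, hdist⟩ := Metric.mem_closure_iff.1 (hYD hy) δ hδ
    have h1 := hcoord (y - d) b
    have h2 : (φ n ((y - d) n) : I → ℝ) b = (φ n (y n) : I → ℝ) b := by
      have : (y - d) n = y n - d n := rfl
      rw [this, map_sub, Submodule.coe_sub, Pi.sub_apply, hD0 d hd, sub_zero]
    rw [h2] at h1
    rw [dist_eq_norm] at hdist
    linarith
  set x₀ : E n := (φ n).symm ⟨Pi.single a (1 : ℝ), single_mem a⟩ with hx₀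
  have hφx : (φ n x₀ : I → ℝ) = Pi.single a (1 : ℝ) := by
    rw [hx₀, LinearEquiv.apply_symm_apply]
  refine ⟨lp.single 1 n x₀, ?_, ?_⟩
  · rw [lp.norm_single (by norm_num), hφ n x₀, hφx, nrm_single h _ r0 r1]
  · intro l y hy
    set z : lp E 1 := l • lp.single 1 n x₀ + y with hz
    obtain ⟨s1, e1⟩ := norm_l1 z
    obtain ⟨s2, e2⟩ := norm_l1 y
    have hterm : ∀ m, (if m = n then |l| else 0) + rr n * ‖y m‖ ≤ ‖z m‖ := by
      intro m
      by_cases hm : m = n
      · subst hm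
        rw [if_pos rfl, hφ m (z m), hφ m (y m)]
        obtain ⟨C, hC0, hC⟩ := bdd_C0 (φ m (y m))
        have h1 := n4 (φ m (y m)) C hC a l (hzero y hy)
        refine h1.trans (le_of_eq ?_)
        congr 1
        have h2 : z m = l • x₀ + y m := by
          rw [hz, lp.coeFn_add, Pi.add_apply, lp.coeFn_smul, Pi.smul_apply, lp.single_apply_self]
        rw [h2, map_add, map_smul, Submodule.coe_add, Submodule.coe_smul, hφx]
        congr 1
        funext b
        by_cases hb : b = a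
        · subst hb; simp
        · rw [Pi.smul_apply, Pi.single_eq_of_ne hb, Pi.single_eq_of_ne hb, smul_zero]
      · rw [if_neg hm, zero_add]
        have h2 : z m = y m := by
          rw [hz, lp.coeFn_add, Pi.add_apply, lp.coeFn_smul, Pi.smul_apply,
            lp.single_apply_ne 1 n _ hm, smul_zero, zero_add]
        rw [h2]
        nlinarith [norm_nonneg (y m)]
    have s3 : Summable (fun m => (if m = n then |l| else 0) + rr n * ‖y m‖) :=
      ((hasSum_ite_eq n |l|).summable).add (s2.mul_left _)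
    have h3 := s3.tsum_le_tsum hterm s1
    rw [((hasSum_ite_eq n |l|).summable).tsum_add (s2.mul_left _), tsum_ite_eq, tsum_mul_left,
      ← e1, ← e2] at h3
    have h4 : 0 ≤ (rr n - (1 - ε)) * ‖y‖ := mul_nonneg (by linarith) (norm_nonneg _)
    have h5 : 0 ≤ ε * |l| := mul_nonneg hε.le (abs_nonneg _)
    nlinarith

end Pool.Agent.N756.OCT
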